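import Mathlib
import Pool.Agent.Helper32.Bridged.Defs

set_option autoImplicit false
open Filter

namespace Pool.Agent.Helper13.Bridged

open Pool.Agent.Helper32.Bridged

variable {V : Type} {G : SimpleGraph V}

lemma adj_dist (hG : G.Connected) {u x y : V} (h : G.Adj x y) :
    G.dist u x ≤ G.dist u y + 1 ∧ G.dist u y ≤ G.dist u x + 1 := by
  have h1 := hG.dist_triangle (u := u) (v := y) (w := x)
  have h2 := hG.dist_triangle (u := u) (v := x) (w := y)
  have h3 : G.dist x y = 1 := SimpleGraph.dist_eq_one_iff_adj.2 h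
  have h4 : G.dist y x = 1 := SimpleGraph.dist_eq_one_iff_adj.2 h.symm
  omega

lemma adj_dist' (hG : G.Connected) {u x y : V} (h : G.Adj x y) :
    G.dist x u ≤ G.dist y u + 1 ∧ G.dist y u ≤ G.dist x u + 1 := by
  rw [G.dist_comm (u := x), G.dist_comm (u := y)]
  exact adj_dist hG h

lemma dist_two (hG : G.Connected) {x y z : V} (h1 : G.Adj x z) (h2 : G.Adj z y) (hne : x ≠ y)
    (hn : ¬ G.Adj x y) : G.dist x y = 2 := by
  have h3 := adj_dist hG (u := x) h2
  have h4 : G.dist x z = 1 := SimpleGraph.dist_eq_one_iff_adj.2 h1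
  have h5 : G.dist x y ≠ 1 := fun h => hn (SimpleGraph.dist_eq_one_iff_adj.1 h)
  have h6 : G.dist x y ≠ 0 := fun h => hne ((hG x y).dist_eq_zero_iff.1 h)
  omega

/-- no induced 4-cycles -/
lemma c4 (hG : G.Connected) (h : NoIso G) {x a y b : V} (h1 : G.Adj x a) (h2 : G.Adj a y)
    (h3 : G.Adj y b) (h4 : G.Adj b x) (hxy : x ≠ y) (hab : a ≠ b) (nxy : ¬ G.Adj x y)
    (nab : ¬ G.Adj a b) : False := by
  refine h 4 le_rfl ![x, a, y, b] ?_
  have e1 : G.dist x y = 2 := dist_two hG h1 h2 hxy nxy
  have e2 : G.dist a b = 2 := dist_two hG h2 h3 hab nab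
  have f1 := SimpleGraph.dist_eq_one_iff_adj.2 h1
  have f2 := SimpleGraph.dist_eq_one_iff_adj.2 h2
  have f3 := SimpleGraph.dist_eq_one_iff_adj.2 h3
  have f4 := SimpleGraph.dist_eq_one_iff_adj.2 h4
  have e1' : G.dist y x = 2 := by rw [G.dist_comm]; exact e1
  have e2' : G.dist b a = 2 := by rw [G.dist_comm]; exact e2
  have f1' : G.dist a x = 1 := by rw [G.dist_comm]; exact f1
  have f2' : G.dist y a = 1 := by rw [G.dist_comm]; exact f2
  have f3' : G.dist b y = 1 := by rw [G.dist_comm]; exact f3
  have f4' : G.dist x b = 1 := by rw [G.dist_comm]; exact f4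
  intro i j
  fin_cases i <;> fin_cases j <;> simp [*]

/-- no induced 5-cycles -/
lemma c5 (hG : G.Connected) (h : NoIso G) {x p a b q : V} (h1 : G.Adj x p) (h2 : G.Adj p a)
    (h3 : G.Adj a b) (h4 : G.Adj b q) (h5 : G.Adj q x)
    (xa : x ≠ a) (xb : x ≠ b) (pb : p ≠ b) (pq : p ≠ q) (aq : a ≠ q)
    (nxa : ¬ G.Adj x a) (nxb : ¬ G.Adj x b) (npb : ¬ G.Adj p b) (npq : ¬ G.Adj p q)
    (naq : ¬ G.Adj a q) : False := by
  refine h 5 (by norm_num) ![x, p, a, b, q] ?_
  have e1 : G.dist x a = 2 := dist_two hG h1 h2 xa nxa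
  have e2 : G.dist p b = 2 := dist_two hG h2 h3 pb npb
  have e3 : G.dist a q = 2 := dist_two hG h3 h4 aq naq
  have e4 : G.dist b x = 2 := dist_two hG h4 h5 xb.symm (fun h => nxb h.symm)
  have e5 : G.dist q p = 2 := dist_two hG h5 h1 pq.symm (fun h => npq h.symm)
  have f1 := SimpleGraph.dist_eq_one_iff_adj.2 h1
  have f2 := SimpleGraph.dist_eq_one_iff_adj.2 h2
  have f3 := SimpleGraph.dist_eq_one_iff_adj.2 h3
  have f4 := SimpleGraph.dist_eq_one_iff_adj.2 h4
  have f5 := SimpleGraph.dist_eq_one_iff_adj.2 h5
  have e1' : G.dist a x = 2 := by rw [G.dist_comm]; exact e1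
  have e2' : G.dist b p = 2 := by rw [G.dist_comm]; exact e2
  have e3' : G.dist q a = 2 := by rw [G.dist_comm]; exact e3
  have e4' : G.dist x b = 2 := by rw [G.dist_comm]; exact e4
  have e5' : G.dist p q = 2 := by rw [G.dist_comm]; exact e5
  have f1' : G.dist p x = 1 := by rw [G.dist_comm]; exact f1
  have f2' : G.dist a p = 1 := by rw [G.dist_comm]; exact f2
  have f3' : G.dist b a = 1 := by rw [G.dist_comm]; exact f3
  have f4' : G.dist q b = 1 := by rw [G.dist_comm]; exact f4
  have f5' : G.dist x q = 1 := by rw [G.dist_comm]; exact f5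
  intro i j
  fin_cases i <;> fin_cases j <;> simp [*]

lemma walk_le (hG : G.Connected) {c : ℕ → V} (hadj : ∀ i, G.Adj (c i) (c (i + 1))) (i m : ℕ) :
    G.dist (c i) (c (i + m)) ≤ m := by
  induction m with
  | zero => simp
  | succ m ih =>
    have := (adj_dist hG (u := c i) (hadj (i + m))).2
    rw [← add_assoc]
    omega

/-- a closed walk with all antipodal distances maximal is an isometric cycle -/
lemma iso (hG : G.Connected) (h : NoIso G) {c : ℕ → V} (hadj : ∀ i, G.Adj (c i) (c (i + 1)))
    {n k : ℕ} (hn : 4 ≤ n) (hper : ∀ i, c (i + n) = c i) (hk1 : 2 * k ≤ n) (hk2 : n ≤ 2 * k + 1)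
    (hd : ∀ i, G.dist (c i) (c (i + k)) = k) : False := by
  -- distances for m ≤ k
  have key : ∀ i m, m ≤ k → G.dist (c i) (c (i + m)) = m := by
    intro i m hm
    have h1 := walk_le hG hadj i m
    have h2 := walk_le hG hadj (i + m) (k - m)
    have h3 := hd i
    have h4 := hG.dist_triangle (u := c i) (v := c (i + m)) (w := c (i + k))
    rw [show i + m + (k - m) = i + k by omega] at h2
    omega
  have key2 : ∀ i m, m ≤ n → G.dist (c i) (c (i + m)) = min m (n - m) := by
    intro i m hm
    rcases le_or_gt m k with hmk | hmk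
    · rw [key i m hmk]; omega
    · have h1 := key (i + m) (n - m) (by omega)
      rw [show i + m + (n - m) = i + n by omega, hper, G.dist_comm] at h1
      rw [h1]; omega
  refine h n hn (fun i => c i) ?_
  intro i j
  rcases le_total (i : ℕ) (j : ℕ) with hij | hij
  · have h1 := key2 i (j - i) (by omega)
    rw [show (i : ℕ) + ((j : ℕ) - i) = j by omega] at h1
    rw [h1]
    omega
  · have h1 := key2 j (i - j) (by omega)
    rw [show (j : ℕ) + ((i : ℕ) - j) = i by omega, G.dist_comm] at h1
    rw [h1]
    omega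

/-- geodesics as functions -/
lemma geod (hG : G.Connected) (m : ℕ) : ∀ u v : V, G.dist u v = m →
    ∃ g : ℕ → V, g 0 = u ∧ g m = v ∧ ∀ i < m, G.Adj (g i) (g (i + 1)) := by
  intro u v huv
  obtain ⟨p, hp⟩ := hG.exists_walk_length_eq_dist u v
  refine ⟨p.getVert, by simp, ?_, ?_⟩
  · rw [← huv, ← hp]; simp
  · intro i hi
    exact p.adj_getVert_succ (by omega)

/-- predecessor -/
lemma pred (hG : G.Connected) {u x : V} {m : ℕ} (h : G.dist u x = m + 1) :
    ∃ y, G.Adj x y ∧ G.dist u y = m := by
  obtain ⟨g, g0, g1, g2⟩ := geod hG (m + 1) u x h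
  refine ⟨g m, ?_, ?_⟩
  · rw [← g1]; exact (g2 m (by omega)).symm
  · have h1 : ∀ i ≤ m, G.dist u (g i) ≤ i := by
      intro i hi
      induction i with
      | zero => rw [g0]; simp
      | succ i ih =>
        have := (adj_dist hG (u := u) (g2 i (by omega))).2
        have := ih (by omega)
        omega
    have h2 := h1 m le_rfl
    have h3 := (adj_dist hG (u := u) (g2 m (by omega))).2
    rw [g1] at h3
    omega

/-- closing two walks from the same origin with adjacent endpoints -/
lemma closed_walk {u : V} (a b : ℕ) (g1 g2 : ℕ → V) (h1 : g1 0 = u) (h2 : g2 0 = u)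
    (ha1 : ∀ i < a, G.Adj (g1 i) (g1 (i + 1))) (ha2 : ∀ i < b, G.Adj (g2 i) (g2 (i + 1)))
    (hvw : G.Adj (g1 a) (g2 b)) (hb : 1 ≤ b) :
    ∃ c : ℕ → V, (∀ i, c (i + (a + b + 1)) = c i) ∧ (∀ i, G.Adj (c i) (c (i + 1))) ∧
      (∀ i ≤ a, c i = g1 i) ∧ c (a + 1) = g2 b := by
  set n := a + b + 1 with hn
  let c0 : ℕ → V := fun i => if i ≤ a then g1 i else g2 (n - i)
  refine ⟨fun i => c0 (i % n), ?_, ?_, ?_, ?_⟩
  · intro i
    simp
  · intro i
    have hr : i % n < n := Nat.mod_lt _ (by omega)
    have hs : (i + 1) % n = if i % n + 1 = n then 0 else i % n + 1 := by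
      split_ifs with h
      · rw [Nat.add_mod, Nat.mod_eq_of_lt (show 1 < n by omega), h, Nat.mod_self]
      · rw [Nat.add_mod, Nat.mod_eq_of_lt (show 1 < n by omega), Nat.mod_eq_of_lt (by omega)]
    show G.Adj (c0 (i % n)) (c0 ((i + 1) % n))
    rw [hs]
    generalize i % n = r at hr
    split_ifs with h
    · have e1 : c0 r = g2 1 := by
        simp only [c0]
        rw [if_neg (by omega)]
        congr 1; omega
      have e2 : c0 0 = g2 0 := by
        simp only [c0]
        rw [if_pos (by omega), h1, h2]
      rw [e1, e2]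
      exact (ha2 0 (by omega)).symm
    · rcases lt_trichotomy r a with h' | h' | h'
      · have e1 : c0 r = g1 r := by
          simp only [c0]; rw [if_pos (by omega)]
        have e2 : c0 (r + 1) = g1 (r + 1) := by
          simp only [c0]; rw [if_pos (by omega)]
        rw [e1, e2]; exact ha1 r h'
      · have e1 : c0 r = g1 a := by
          simp only [c0]; rw [if_pos (by omega), h']
        have e2 : c0 (r + 1) = g2 b := by
          simp only [c0]; rw [if_neg (by omega)]; congr 1; omega
        rw [e1, e2]; exact hvw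
      · have e1 : c0 r = g2 (n - r - 1 + 1) := by
          simp only [c0]; rw [if_neg (by omega)]; congr 1; omega
        have e2 : c0 (r + 1) = g2 (n - r - 1) := by
          simp only [c0]; rw [if_neg (by omega)]; congr 1
        rw [e1, e2]; exact (ha2 _ (by omega)).symm
  · intro i hi
    show c0 (i % n) = g1 i
    rw [Nat.mod_eq_of_lt (by omega)]
    simp only [c0]; rw [if_pos hi]
  · show c0 ((a + 1) % n) = g2 b
    rw [Nat.mod_eq_of_lt (by omega)]
    simp only [c0]; rw [if_neg (by omega)]; congr 1; omega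

def TT (G : SimpleGraph V) (k : ℕ) : Prop :=
  ∀ u x y : V, G.dist u x = k → G.dist u y = k → G.Adj x y →
      ∃ r, G.Adj x r ∧ G.Adj y r ∧ G.dist u r + 1 = k

def QQ (G : SimpleGraph V) (k : ℕ) : Prop :=
  ∀ u x p q : V, G.dist u x = k → G.Adj x p → G.Adj x q → G.dist u p + 1 = k →
      G.dist u q + 1 = k → p = q ∨ G.Adj p q

/-- the condition for the quadrangle walk -/
def InstQ (G : SimpleGraph V) (k : ℕ) (c : ℕ → V) : Prop :=
  G.dist (c 0) (c k) = k ∧ c (k - 1) ≠ c (k + 1) ∧ ¬ G.Adj (c (k - 1)) (c (k + 1))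

lemma shiftQ (hG : G.Connected) (h : NoIso G) {k : ℕ} (hk : 3 ≤ k) (hT : TT G (k - 1))
    (hQ : QQ G (k - 1)) {c : ℕ → V} (hadj : ∀ i, G.Adj (c i) (c (i + 1)))
    (hper : ∀ i, c (i + 2 * k) = c i) (hI : InstQ G k c) :
    InstQ G k (fun i => c (i + 1)) := by
  obtain ⟨hd, hne, hna⟩ := hI
  have W := fun i m => walk_le hG hadj i m
  have w1 := W (k) k
  have w2 := W (k + 2) (k - 2)
  have w3 := W (k + 1) k
  have w4 := W 1 (k - 2)
  have w5 := W 1 (k - 1)
  have w6 := W (k + 1) (k - 1)
  have hp0 : c (2 * k) = c 0 := by have := hper 0; rwa [Nat.zero_add] at this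
  have hp1 : c (2 * k + 1) = c 1 := by have := hper 1; rwa [Nat.add_comm] at this
  rw [show k + 2 + (k - 2) = 2 * k by omega, hp0] at w2
  rw [show k + 1 + k = 2 * k + 1 by omega, hp1] at w3
  rw [show 1 + (k - 2) = k - 1 by omega] at w4
  rw [show 1 + (k - 1) = k by omega] at w5
  rw [show k + 1 + (k - 1) = 2 * k by omega, hp0] at w6
  have a01 : G.Adj (c 0) (c 1) := hadj 0
  have aqx : G.Adj (c (k - 1)) (c k) := by
    have := hadj (k - 1); rwa [show k - 1 + 1 = k by omega] at this
  have axp : G.Adj (c k) (c (k + 1)) := hadj k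
  have ap2 : G.Adj (c (k + 1)) (c (k + 2)) := hadj (k + 1)
  -- distances to x
  have hd' : G.dist (c k) (c 0) = k := by rw [G.dist_comm]; exact hd
  have d1x : G.dist (c 1) (c k) = k - 1 := by
    have := adj_dist' hG (u := c k) a01
    omega
  have d2 : G.dist (c k) (c (k + 2)) = 2 := by
    have t1 := hG.dist_triangle (u := c k) (v := c (k + 2)) (w := c 0)
    have t2 := adj_dist hG (u := c k) ap2
    have t3 : G.dist (c k) (c (k + 1)) = 1 := SimpleGraph.dist_eq_one_iff_adj.2 axp
    omega
  have dup : G.dist (c 0) (c (k + 1)) = k - 1 := by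
    have := adj_dist hG (u := c 0) axp
    rw [G.dist_comm (u := c (k + 1)) (v := c 0)] at w6
    omega
  have d1q : G.dist (c 1) (c (k - 1)) = k - 2 := by
    have := adj_dist hG (u := c 1) aqx
    omega
  have duq : G.dist (c 0) (c (k - 1)) = k - 1 := by
    have t1 := adj_dist hG (u := c 0) aqx
    have t2 := adj_dist' hG (u := c (k - 1)) a01
    omega
  refine ⟨?_, ?_, ?_⟩
  · -- the distance
    show G.dist (c (0 + 1)) (c (k + 1)) = k
    rw [Nat.zero_add]
    by_contra hcon
    rw [G.dist_comm (u := c (k + 1)) (v := c 1)] at w3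
    rcases Nat.lt_or_ge (G.dist (c 1) (c (k + 1))) (k - 1) with hlt | hge
    · -- distance k - 2
      have t1 := adj_dist hG (u := c 1) axp
      have := hQ (c 1) (c k) (c (k - 1)) (c (k + 1)) d1x aqx.symm axp (by omega) (by omega)
      rcases this with h1 | h1
      · exact hne h1
      · exact hna h1
    · have hkk : G.dist (c 1) (c (k + 1)) = k - 1 := by omega
      obtain ⟨r1, hr1, hr1', dr1⟩ := hT (c (k + 1)) (c 0) (c 1) (by rw [G.dist_comm]; exact dup)
        (by rw [G.dist_comm]; exact hkk) a01
      -- d(r1,x) = k - 1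
      have dpx : G.dist (c (k + 1)) (c k) = 1 := SimpleGraph.dist_eq_one_iff_adj.2 axp.symm
      have dr1p : G.dist r1 (c (k + 1)) = k - 2 := by
        rw [G.dist_comm]; omega
      have dr1x : G.dist r1 (c k) = k - 1 := by
        have t1 := adj_dist hG (u := r1) axp
        have t2 := adj_dist' hG (u := c k) hr1
        omega
      obtain ⟨r, hr, hr', dr⟩ := hT (c k) r1 (c 1) (by rw [G.dist_comm]; exact dr1x)
        (by rw [G.dist_comm]; exact d1x) hr1'.symm
      obtain ⟨s, hs, ds⟩ := pred hG (u := r) (x := c k) (m := k - 3) (by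
        rw [G.dist_comm]; omega)
      have d0s : G.dist (c 0) s = k - 1 := by
        have t1 := adj_dist hG (u := c 0) hs
        have t2 := adj_dist' hG (u := s) hr
        have t3 := adj_dist' hG (u := s) hr1
        omega
      have dr1s : G.dist r1 s = k - 2 := by
        have t2 := adj_dist' hG (u := s) hr
        have t3 := adj_dist' hG (u := s) hr1
        omega
      have d1s : G.dist (c 1) s = k - 2 := by
        have t2 := adj_dist' hG (u := s) hr'
        have t3 := adj_dist' hG (u := s) a01
        omega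
      have o1 := hQ r1 (c k) (c (k + 1)) s dr1x axp hs (by omega) (by omega)
      have o2 := hQ (c 1) (c k) (c (k - 1)) s d1x aqx.symm hs (by omega) (by omega)
      have hps : c (k + 1) ≠ s := by
        intro hh
        rw [← hh] at o2
        exact o2.elim hne hna
      have hqs : c (k - 1) ≠ s := by
        intro hh
        rw [← hh] at o1
        exact o1.elim (fun h' => hne h'.symm) (fun h' => hna h'.symm)
      have aps : G.Adj (c (k + 1)) s := o1.resolve_left hps
      have aqs : G.Adj (c (k - 1)) s := o2.resolve_left hqs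
      obtain ⟨a, ha, ha', da⟩ := hT (c 0) (c (k + 1)) s dup d0s aps
      obtain ⟨b, hb, hb', db⟩ := hT (c 0) (c (k - 1)) s duq d0s aqs
      have hxa : c k ≠ a := by rintro rfl; omega
      have hxb : c k ≠ b := by rintro rfl; omega
      have nxa : ¬ G.Adj (c k) a := fun hh => by
        have := adj_dist hG (u := c 0) hh
        omega
      have nxb : ¬ G.Adj (c k) b := fun hh => by
        have := adj_dist hG (u := c 0) hh
        omega
      have c4a : ∀ e, G.Adj (c (k + 1)) e → G.Adj (c (k - 1)) e → c k ≠ e → ¬ G.Adj (c k) e →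
          False := fun e h1 h2 h3 h4 =>
        c4 hG h axp h1 h2.symm aqx h3 (fun hh => hne hh.symm) h4 (fun hh => hna hh.symm)
      rcases hQ (c 0) s a b d0s ha' hb' (by omega) (by omega) with hab | hab
      · subst hab
        exact c4a a ha hb hxa nxa
      · by_cases hpb : G.Adj (c (k + 1)) b
        · exact c4a b hpb hb hxb nxb
        · by_cases hqa : G.Adj (c (k - 1)) a
          · exact c4a a ha hqa hxa nxa
          · refine c5 hG h axp ha hab hb.symm aqx hxa hxb ?_ (fun hh => hne hh.symm) ?_ nxa nxb
              hpb (fun hh => hna hh.symm) (fun hh => hqa hh.symm)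
            · rintro rfl; omega
            · rintro rfl; omega
  · show c (k - 1 + 1) ≠ c (k + 1 + 1)
    rw [show k - 1 + 1 = k by omega]
    intro hh
    rw [show k + 1 + 1 = k + 2 by omega] at hh
    rw [← hh] at d2
    simp at d2
  · show ¬ G.Adj (c (k - 1 + 1)) (c (k + 1 + 1))
    rw [show k - 1 + 1 = k by omega]
    intro hh
    rw [show k + 1 + 1 = k + 2 by omega] at hh
    have := SimpleGraph.dist_eq_one_iff_adj.2 hh
    omega

/-- the condition for the triangle walk -/
def InstT (G : SimpleGraph V) (k : ℕ) (c : ℕ → V) : Prop :=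
  G.dist (c 0) (c k) = k ∧ G.dist (c 0) (c (k + 1)) = k ∧
    ∀ r, G.Adj (c k) r → G.Adj (c (k + 1)) r → G.dist (c 0) r + 1 = k → False

lemma shiftT (hG : G.Connected) (h : NoIso G) {k : ℕ} (hk : 2 ≤ k) (hT : TT G (k - 1))
    (hQ : QQ G k) {c : ℕ → V} (hadj : ∀ i, G.Adj (c i) (c (i + 1)))
    (hper : ∀ i, c (i + (2 * k + 1)) = c i) (hI : InstT G k c) :
    InstT G k (fun i => c (i + 1)) := by
  obtain ⟨hdy, hdx, hno⟩ := hI
  have W := fun i m => walk_le hG hadj i m
  have w1 := W 1 (k - 1)
  have w2 := W (k + 2) (k - 1)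
  have hp0 : c (2 * k + 1) = c 0 := by have := hper 0; rwa [Nat.zero_add] at this
  rw [show 1 + (k - 1) = k by omega] at w1
  rw [show k + 2 + (k - 1) = 2 * k + 1 by omega, hp0, G.dist_comm] at w2
  have a01 : G.Adj (c 0) (c 1) := hadj 0
  have ayx : G.Adj (c k) (c (k + 1)) := hadj k
  have axp : G.Adj (c (k + 1)) (c (k + 2)) := hadj (k + 1)
  have dup : G.dist (c 0) (c (k + 2)) = k - 1 := by
    have := adj_dist hG (u := c 0) axp
    omega
  have d1y : G.dist (c 1) (c k) = k - 1 := by
    have := adj_dist' hG (u := c k) a01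
    omega
  have nyp : ¬ G.Adj (c k) (c (k + 2)) := fun hh => hno (c (k + 2)) hh axp (by omega)
  have d1x : G.dist (c 1) (c (k + 1)) = k := by
    have t1 := adj_dist' hG (u := c (k + 1)) a01
    have t2 := adj_dist hG (u := c 1) ayx
    by_contra hcon
    obtain ⟨r, hr, hr', dr⟩ := hT (c 1) (c k) (c (k + 1)) d1y (by omega) ayx
    have t3 := adj_dist' hG (u := r) a01
    have t4 := adj_dist hG (u := c 0) hr
    exact hno r hr hr' (by omega)
  have hyp : c k ≠ c (k + 2) := by
    intro hh; rw [hh] at hdy; omega
  have d1p : G.dist (c 1) (c (k + 2)) = k := by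
    have t1 := adj_dist' hG (u := c (k + 2)) a01
    have t2 := adj_dist hG (u := c 1) axp
    by_contra hcon
    rcases hQ (c 1) (c (k + 1)) (c k) (c (k + 2)) d1x ayx.symm axp (by omega) (by omega)
      with hh | hh
    · exact hyp hh
    · exact nyp hh
  refine ⟨?_, ?_, ?_⟩
  · show G.dist (c (0 + 1)) (c (k + 1)) = k
    rw [Nat.zero_add]; exact d1x
  · show G.dist (c (0 + 1)) (c (k + 1 + 1)) = k
    rw [Nat.zero_add]; exact d1p
  · show ∀ r, G.Adj (c (k + 1)) r → G.Adj (c (k + 1 + 1)) r → G.dist (c (0 + 1)) r + 1 = k → False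
    rw [Nat.zero_add, show k + 1 + 1 = k + 2 by omega]
    intro r hxr hpr dr
    have hry : G.Adj r (c k) := by
      rcases hQ (c 1) (c (k + 1)) r (c k) d1x hxr ayx.symm (by omega) (by omega) with hh | hh
      · rw [hh] at hpr
        exact absurd hpr.symm nyp
      · exact hh
    have dur : G.dist (c 0) r = k := by
      have t1 := adj_dist' hG (u := r) a01
      have t2 := adj_dist hG (u := c 0) hxr
      by_contra hcon
      exact hno r hry.symm hxr (by omega)
    obtain ⟨r', h1, h2, dr'⟩ := hT (c 1) r (c k) (by omega) d1y hry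
    have dur' : G.dist (c 0) r' = k - 1 := by
      have t1 := adj_dist' hG (u := r') a01
      have t2 := adj_dist hG (u := c 0) h2
      omega
    have nxr' : ¬ G.Adj (c (k + 1)) r' := fun hh => hno r' h2 hh (by omega)
    have hxr' : c (k + 1) ≠ r' := by rintro hh; rw [hh] at hdx; omega
    rcases hQ (c 0) r (c (k + 2)) r' dur hpr.symm h1 (by omega) (by omega) with hh | hh
    · rw [← hh] at h2
      exact nyp h2
    · exact c4 hG h axp hh h2.symm ayx hxr' hyp.symm nxr' (fun hh' => nyp hh'.symm)

theorem main (hG : G.Connected) (h : NoIso G) (m : ℕ) : TT G (m + 1) ∧ QQ G (m + 1) := by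
  induction m with
  | zero =>
    refine ⟨?_, ?_⟩
    · intro u x y hx hy hxy
      refine ⟨u, ?_, ?_, by simp⟩
      · exact (SimpleGraph.dist_eq_one_iff_adj.1 hx).symm
      · exact (SimpleGraph.dist_eq_one_iff_adj.1 hy).symm
    · intro u x p q hx hp hq h1 h2
      left
      have e1 : u = p := (hG u p).dist_eq_zero_iff.1 (by omega)
      have e2 : u = q := (hG u q).dist_eq_zero_iff.1 (by omega)
      rw [← e1, ← e2]
  | succ m ih =>
    obtain ⟨hT, hQ⟩ := ih
    -- first Q
    have Qk : QQ G (m + 2) := by
      intro u x p q hx hp hq h1 h2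
      by_contra hcon
      rw [not_or] at hcon
      obtain ⟨hne, hna⟩ := hcon
      have hux : ¬ G.Adj u x := fun hh => by
        have := SimpleGraph.dist_eq_one_iff_adj.2 hh
        omega
      have hux' : u ≠ x := by rintro rfl; simp at hx
      rcases Nat.eq_zero_or_pos m with rfl | hm
      · exact c4 hG h (SimpleGraph.dist_eq_one_iff_adj.1 (show G.dist u p = 1 by omega))
          hp.symm hq (SimpleGraph.dist_eq_one_iff_adj.1 (show G.dist u q = 1 by omega)).symm
          hux' hne hux hna
      · obtain ⟨g1, g10, g1q, g1a⟩ := geod hG (m + 1) u q (by omega)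
        obtain ⟨g2, g20, g2p, g2a⟩ := geod hG (m + 1) u p (by omega)
        obtain ⟨c, hper, hadj, hc1, hc2⟩ := closed_walk (G := G) (u := u) (m + 2) (m + 1)
          (fun i => if i ≤ m + 1 then g1 i else x) g2 (by simpa using g10) g20 (by
            intro i hi
            rcases Nat.lt_or_ge i (m + 1) with h' | h'
            · have e1 : (if i ≤ m + 1 then g1 i else x) = g1 i := if_pos (by omega)
              have e2 : (if i + 1 ≤ m + 1 then g1 (i + 1) else x) = g1 (i + 1) :=
                if_pos (by omega)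
              simp only [e1, e2]
              exact g1a i h'
            · obtain rfl : i = m + 1 := by omega
              have e1 : (if m + 1 ≤ m + 1 then g1 (m + 1) else x) = q := by
                rw [if_pos (by omega), g1q]
              have e2 : (if m + 1 + 1 ≤ m + 1 then g1 (m + 1 + 1) else x) = x :=
                if_neg (by omega)
              show G.Adj (if m + 1 ≤ m + 1 then g1 (m + 1) else x)
                (if m + 1 + 1 ≤ m + 1 then g1 (m + 1 + 1) else x)
              rw [e1, e2]
              exact hq.symm) g2a (by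
              have e2 : (if m + 2 ≤ m + 1 then g1 (m + 2) else x) = x :=
                if_neg (by omega)
              simp only [e2, g2p]
              exact hp) (by omega)
        have c0 : c 0 = u := by rw [hc1 0 (by omega)]; simpa using g10
        have cq : c (m + 1) = q := by
          rw [hc1 (m + 1) (by omega)]
          simpa using g1q
        have cx : c (m + 2) = x := by
          rw [hc1 (m + 2) (by omega)]
          exact if_neg (by omega)
        have cp : c (m + 2 + 1) = p := by rw [hc2, g2p]
        have hper' : ∀ i, c (i + 2 * (m + 2)) = c i := by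
          intro i
          rw [← hper i]; congr 1; omega
        have I0 : InstQ G (m + 2) c := by
          refine ⟨by rw [c0, cx]; exact hx, ?_, ?_⟩
          · show c (m + 1) ≠ c (m + 2 + 1)
            rw [cq, cp]; exact fun hh => hne hh.symm
          · show ¬ G.Adj (c (m + 1)) (c (m + 2 + 1))
            rw [cq, cp]; exact fun hh => hna hh.symm
        have I : ∀ i, InstQ G (m + 2) (fun j => c (j + i)) := by
          intro i
          induction i with
          | zero => exact I0
          | succ i ih =>
            have := shiftQ hG h (k := m + 2) (by omega) hT hQ (c := fun j => c (j + i))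
              (fun j => by
                show G.Adj (c (j + i)) (c (j + 1 + i))
                rw [show j + 1 + i = j + i + 1 by omega]; exact hadj _)
              (fun j => by
                show c (j + 2 * (m + 2) + i) = c (j + i)
                rw [show j + 2 * (m + 2) + i = j + i + 2 * (m + 2) by omega]; exact hper' _) ih
            have e : (fun j => c (j + (i + 1))) = (fun j => (fun j => c (j + i)) (j + 1)) := by
              funext j
              show c (j + (i + 1)) = c (j + 1 + i)
              congr 1; omega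
            rw [e]; exact this
        refine iso hG h hadj (n := 2 * (m + 2)) (k := m + 2) (by omega) hper' (by omega)
          (by omega) ?_
        intro i
        have := (I i).1
        simp only [Nat.zero_add] at this
        rw [show m + 2 + i = i + (m + 2) by omega] at this
        exact this
    refine ⟨?_, Qk⟩
    intro u x y hx hy hxy
    by_contra hcon
    obtain ⟨g1, g10, g1y, g1a⟩ := geod hG (m + 2) u y hy
    obtain ⟨g2, g20, g2x, g2a⟩ := geod hG (m + 2) u x hx
    obtain ⟨c, hper, hadj, hc1, hc2⟩ := closed_walk (G := G) (u := u) (m + 2) (m + 2)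
      g1 g2 g10 g20 g1a g2a (by rw [g1y, g2x]; exact hxy.symm) (by omega)
    have c0 : c 0 = u := by rw [hc1 0 (by omega), g10]
    have cy : c (m + 2) = y := by rw [hc1 (m + 2) (by omega), g1y]
    have cx : c (m + 2 + 1) = x := by rw [hc2, g2x]
    have hper' : ∀ i, c (i + (2 * (m + 2) + 1)) = c i := by
      intro i
      rw [← hper i]; congr 1; omega
    have I0 : InstT G (m + 2) c := by
      refine ⟨by rw [c0, cy]; exact hy, by rw [c0, cx]; exact hx, ?_⟩
      intro r hr hr' hd
      rw [cy] at hr
      rw [cx] at hr'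
      rw [c0] at hd
      exact hcon ⟨r, hr', hr, hd⟩
    have I : ∀ i, InstT G (m + 2) (fun j => c (j + i)) := by
      intro i
      induction i with
      | zero => exact I0
      | succ i ih =>
        have := shiftT hG h (k := m + 2) (by omega) hT Qk (c := fun j => c (j + i))
          (fun j => by
            show G.Adj (c (j + i)) (c (j + 1 + i))
            rw [show j + 1 + i = j + i + 1 by omega]; exact hadj _)
          (fun j => by
            show c (j + (2 * (m + 2) + 1) + i) = c (j + i)
            rw [show j + (2 * (m + 2) + 1) + i = j + i + (2 * (m + 2) + 1) by omega]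
            exact hper' _) ih
        have e : (fun j => c (j + (i + 1))) = (fun j => (fun j => c (j + i)) (j + 1)) := by
          funext j
          show c (j + (i + 1)) = c (j + 1 + i)
          congr 1; omega
        rw [e]; exact this
    refine iso hG h hadj (n := 2 * (m + 2) + 1) (k := m + 2) (by omega) hper' (by omega)
      (by omega) ?_
    intro i
    have := (I i).1
    simp only [Nat.zero_add] at this
    rw [show m + 2 + i = i + (m + 2) by omega] at this
    exact this

/-- PACKET A: triangle condition and quadrangle (clique) condition for bridged graphs. -/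
theorem tri_quad {V : Type} {G : SimpleGraph V} (hG : G.Connected) (h : NoIso G) (m : ℕ) :
    (∀ u x y : V, G.dist u x = m + 1 → G.dist u y = m + 1 → G.Adj x y →
      ∃ r, G.Adj x r ∧ G.Adj y r ∧ G.dist u r = m) ∧
    (∀ u x p q : V, G.dist u x = m + 1 → G.Adj x p → G.Adj x q → G.dist u p = m →
      G.dist u q = m → p = q ∨ G.Adj p q) := by
  obtain ⟨hT, hQ⟩ := main hG h m
  refine ⟨?_, ?_⟩
  · intro u x y h1 h2 h3
    obtain ⟨r, hr, hr', hd⟩ := hT u x y h1 h2 h3
    exact ⟨r, hr, hr', by omega⟩
  · intro u x p q h1 h2 h3 h4 h5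
    exact hQ u x p q h1 h2 h3 (by omega) (by omega)

end Pool.Agent.Helper13.Bridged
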